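import Pool.Agent.R37.SimLine

/-!
# MP_598d44_co, Question 1: the sim-width of `L(K_n)` is `⌈(n-1)/4⌉` for `n ≥ 3`

An induced matching of `L(K_n)` across a bipartition `(A, B)` of the edges of `K_n` is a family of
disjoint non-monochromatic triples of vertices.

Upper bound: for `n ≤ 4t+1` split the edges of `K_n` into the edges inside a set of `2t+1` vertices
and two classes whose edges all meet a set of `t` vertices; no class contains `t+1` disjoint edges,
and there is a branch decomposition every cut of which has a side inside one class.

Lower bound: let `n ≥ 4k+2`.  If a 2-colouring of `K_n` has at most `k` disjoint non-monochromatic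
triples then one of the colours has no `k+1` disjoint edges.  Orient every edge of the tree towards
the other side; a sink gives a 3-colouring of `K_n` without a monochromatic matching of size `k+1`,
which is impossible for `n ≥ 4k+2`.
-/

set_option autoImplicit false

namespace Pool.Agent.Results.MP_598d44_co.SimWidthLineKn

open Pool.Agent.R37

/-- **Q1.** The sim-width of the line graph of `K_n` is `⌊(n+2)/4⌋ = ⌈(n-1)/4⌉` for all `n ≥ 3`
(and `0` for `n ≤ 2`, when `L(K_n)` has at most one vertex). -/
theorem result (n : ℕ) : simWidth (⊤ : SimpleGraph (Fin n)).lineGraph =
    if n ≤ 2 then 0 else (n + 2) / 4 := by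
  by_cases hn : n ≤ 2
  · rw [if_pos hn]
    unfold simWidth
    rw [if_pos]
    have hs : Subsingleton (⊤ : SimpleGraph (Fin n)).edgeSet := by
      refine ⟨fun e f => Subtype.ext ?_⟩
      obtain ⟨e, he⟩ := e
      obtain ⟨f, hf⟩ := f
      induction e using Sym2.ind with
      | _ p q =>
        induction f using Sym2.ind with
        | _ r s =>
          rw [SimpleGraph.mem_edgeSet] at he hf
          have h1 : p.val ≠ q.val := fun h => he.ne (Fin.ext h)
          have h2 : r.val ≠ s.val := fun h => hf.ne (Fin.ext h)
          change s(p, q) = s(r, s)
          rw [Sym2.eq_iff]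
          have hp := p.2
          have hq := q.2
          have hr := r.2
          have hs' := s.2
          by_cases h3 : p.val = r.val
          · left; exact ⟨Fin.ext h3, Fin.ext (by omega)⟩
          · right; exact ⟨Fin.ext (by omega), Fin.ext (by omega)⟩
    exact Finite.card_le_one_iff_subsingleton.2 hs
  · rw [if_neg hn]
    exact SimLine.simWidth_lineGraph (by omega)

end Pool.Agent.Results.MP_598d44_co.SimWidthLineKn
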